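import Pool.Agent.H48.RK.Defs

/-!
# An entire curve gives large discs
-/

namespace Pool.Agent.H72.RK

open Metric Set Pool.Agent.H48.RK
open scoped ComplexConjugate Topology

variable {m : ℕ}

/-- the equality case of the Cauchy-Schwarz inequality -/
theorem eq_of_gram {x y : Fin m → ℂ}
    (h : (∑ i, ‖x i‖ ^ 2) * (∑ i, ‖y i‖ ^ 2) - ‖∑ i, x i * conj (y i)‖ ^ 2 ≤ 0) (j : Fin m) :
    ((∑ i, ‖x i‖ ^ 2 : ℝ) : ℂ) * y j = conj (∑ i, x i * conj (y i)) * x j := by
  set S : ℝ := ∑ i, ‖x i‖ ^ 2 with hS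
  set μ : ℂ := ∑ i, x i * conj (y i) with hμ
  have hS0 : 0 ≤ S := Finset.sum_nonneg fun i _ => by positivity
  have h1 : ∑ j, ‖(S : ℂ) * y j - conj μ * x j‖ ^ 2 =
      S * (S * (∑ i, ‖y i‖ ^ 2) - ‖μ‖ ^ 2) := by
    have e : ∀ j, ‖(S : ℂ) * y j - conj μ * x j‖ ^ 2 =
        S ^ 2 * ‖y j‖ ^ 2 + ‖μ‖ ^ 2 * ‖x j‖ ^ 2 - 2 * S * (conj μ * (x j * conj (y j))).re := by
      intro j
      rw [← Complex.normSq_eq_norm_sq, Complex.normSq_sub, Complex.normSq_mul, Complex.normSq_mul,
        Complex.normSq_conj, Complex.normSq_ofReal, Complex.normSq_eq_norm_sq,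
        Complex.normSq_eq_norm_sq, Complex.normSq_eq_norm_sq]
      have e2 : ((S : ℂ) * y j * conj (conj μ * x j)).re =
          S * (conj μ * (x j * conj (y j))).re := by
        have e3 : (S : ℂ) * y j * conj (conj μ * x j) =
            (S : ℂ) * conj (conj μ * (x j * conj (y j))) := by
          simp only [map_mul, Complex.conj_conj]
          ring
        rw [e3, Complex.re_ofReal_mul, Complex.conj_re]
      rw [e2]
      ring
    simp_rw [e]
    rw [Finset.sum_sub_distrib, Finset.sum_add_distrib, ← Finset.mul_sum, ← Finset.mul_sum,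
      ← Finset.mul_sum, ← Complex.re_sum, ← Finset.mul_sum, ← hμ, ← hS]
    have e4 : (conj μ * μ).re = ‖μ‖ ^ 2 := by
      rw [← Complex.normSq_eq_conj_mul_self, Complex.ofReal_re, Complex.normSq_eq_norm_sq]
    rw [e4]
    ring
  have h2 : ∑ j, ‖(S : ℂ) * y j - conj μ * x j‖ ^ 2 ≤ 0 := by
    rw [h1]
    exact mul_nonpos_of_nonneg_of_nonpos hS0 h
  have h3 := (Finset.sum_eq_zero_iff_of_nonneg fun i _ => by positivity).1
    (le_antisymm h2 (Finset.sum_nonneg fun i _ => by positivity)) j (Finset.mem_univ j)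
  have h4 : (S : ℂ) * y j - conj μ * x j = 0 := by
    rw [← norm_eq_zero]
    exact pow_eq_zero_iff two_ne_zero |>.1 h3
  exact sub_eq_zero.1 h4

theorem sum_pos {x : Fin m → ℂ} (hx : x ≠ 0) : 0 < ∑ i, ‖x i‖ ^ 2 := by
  obtain ⟨i, hi⟩ := Function.ne_iff.1 hx
  refine Finset.sum_pos' (fun i _ => by positivity) ⟨i, Finset.mem_univ i, ?_⟩
  have : 0 < ‖x i‖ := norm_pos_iff.2 hi
  positivity

/-- A curve whose Fubini-Study derivative is zero is constant. -/
theorem const_of_fs {g : ℂ → Fin m → ℂ} (hg : Differentiable ℂ g) (h0 : ∀ z, g z ≠ 0)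
    (hfs : ∀ z, fs g z ≤ 0) (z : ℂ) : ∃ c : ℂ, g z = c • g 0 := by
  have hW : ∀ z i j, deriv g z j * g z i = g z j * deriv g z i := by
    intro z i j
    have h1 : (∑ i, ‖g z i‖ ^ 2) * (∑ i, ‖deriv g z i‖ ^ 2) -
        ‖∑ i, g z i * conj (deriv g z i)‖ ^ 2 ≤ 0 := by
      by_contra hcon
      push Not at hcon
      have := div_pos (Real.sqrt_pos.2 hcon) (sum_pos (h0 z))
      have h2 := hfs z
      unfold fs at h2
      linarith
    have h2 := eq_of_gram h1 j
    have h3 := eq_of_gram h1 i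
    have h4 : ((∑ i, ‖g z i‖ ^ 2 : ℝ) : ℂ) ≠ 0 := by
      exact_mod_cast (sum_pos (h0 z)).ne'
    apply mul_left_cancel₀ h4
    linear_combination (g z i) * h2 - (g z j) * h3
  obtain ⟨i, hi⟩ := Function.ne_iff.1 (h0 0)
  have hi' : g 0 i ≠ 0 := hi
  have hd : ∀ j, Differentiable ℂ fun z => g z j := fun j => differentiable_pi.1 hg j
  have hder : ∀ j z, HasDerivAt (fun z => g z j) (deriv g z j) z := fun j z =>
    hasDerivAt_pi.1 (hg z).hasDerivAt j
  -- a ball on which the coordinate is not zero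
  obtain ⟨ε, hε, hball⟩ := Metric.continuousAt_iff.1 (hd i).continuous.continuousAt ‖g 0 i‖
    (norm_pos_iff.2 hi')
  have hne : ∀ z ∈ ball (0 : ℂ) ε, g z i ≠ 0 := by
    intro z hz h
    have h1 := hball (mem_ball.1 hz)
    rw [h, dist_eq_norm, zero_sub, norm_neg] at h1
    exact lt_irrefl _ h1
  have key : ∀ j, (fun z => g z j) = fun z => (g 0 j / g 0 i) * g z i := by
    intro j
    have hq : ∀ z ∈ ball (0 : ℂ) ε, HasDerivAt (fun z => g z j / g z i) 0 z := by
      intro z hz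
      have h1 := (hder j z).div (hder i z) (hne z hz)
      have h2 : (deriv g z j * g z i - g z j * deriv g z i) / g z i ^ 2 = 0 := by
        rw [hW z i j, sub_self, zero_div]
      rw [h2] at h1
      exact h1
    have hconst : ∀ z ∈ ball (0 : ℂ) ε, g z j / g z i = g 0 j / g 0 i := by
      intro z hz
      exact isOpen_ball.is_const_of_deriv_eq_zero (convex_ball (0 : ℂ) ε).isPreconnected
        (fun w hw => (hq w hw).differentiableAt.differentiableWithinAt)
        (fun w hw => (hq w hw).deriv) hz (mem_ball_self hε)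
    have hA : AnalyticOnNhd ℂ (fun z => g z j) univ :=
      (hd j).differentiableOn.analyticOnNhd isOpen_univ
    have hB : AnalyticOnNhd ℂ (fun z => (g 0 j / g 0 i) * g z i) univ :=
      ((hd i).const_mul _).differentiableOn.analyticOnNhd isOpen_univ
    refine hA.eq_of_eventuallyEq hB (z₀ := 0) ?_
    filter_upwards [ball_mem_nhds (0 : ℂ) hε] with w hw
    rw [← hconst w hw, div_mul_cancel₀ _ (hne w hw)]
  refine ⟨g z i / g 0 i, funext fun j => ?_⟩
  have h1 := congrFun (key j) z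
  simp only [Pi.smul_apply, smul_eq_mul]
  rw [h1]
  field_simp

theorem badToD : BadToD := by
  intro m d a ⟨g, hg, h0, hF, hc⟩
  have hx : ∃ x, 0 < fs g x := by
    by_contra hcon
    push Not at hcon
    exact hc (const_of_fs hg h0 hcon)
  obtain ⟨x, hx⟩ := hx
  set R : ℝ := 4 / fs g x with hR
  have hR0 : 0 < R := by positivity
  have hder : HasDerivAt (fun w : ℂ => g (x + R * w)) ((R : ℂ) • deriv g x) 0 := by
    have h1 : HasDerivAt (fun w : ℂ => x + R * w) (R : ℂ) 0 := by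
      have := ((hasDerivAt_id (0 : ℂ)).const_mul (R : ℂ)).const_add x
      simpa using this
    have h2 : HasDerivAt g (deriv g x) (x + R * 0) := by
      rw [mul_zero, add_zero]
      exact (hg x).hasDerivAt
    exact h2.scomp (0 : ℂ) h1
  refine ⟨fun w => g (x + R * w), ?_, fun z _ => h0 _, fun z _ => hF _, ?_⟩
  · refine Differentiable.differentiableOn ?_
    exact hg.comp ((differentiable_const x).add ((differentiable_const (R : ℂ)).mul differentiable_id))
  · unfold fs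
    rw [hder.deriv]
    simp only [mul_zero, add_zero, Pi.smul_apply, smul_eq_mul]
    have e1 : ∀ i, ‖(R : ℂ) * deriv g x i‖ ^ 2 = R ^ 2 * ‖deriv g x i‖ ^ 2 := fun i => by
      rw [norm_mul, Complex.norm_real, Real.norm_of_nonneg hR0.le, mul_pow]
    have e2 : ∑ i, g x i * conj ((R : ℂ) * deriv g x i) =
        (R : ℂ) * ∑ i, g x i * conj (deriv g x i) := by
      rw [Finset.mul_sum]
      refine Finset.sum_congr rfl fun i _ => ?_
      rw [map_mul, Complex.conj_ofReal]
      ring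
    simp_rw [e1]
    rw [e2, ← Finset.mul_sum, norm_mul, Complex.norm_real, Real.norm_of_nonneg hR0.le, mul_pow]
    have e3 : (∑ i, ‖g x i‖ ^ 2) * (R ^ 2 * ∑ i, ‖deriv g x i‖ ^ 2) -
        R ^ 2 * ‖∑ i, g x i * conj (deriv g x i)‖ ^ 2 =
        R ^ 2 * ((∑ i, ‖g x i‖ ^ 2) * (∑ i, ‖deriv g x i‖ ^ 2) -
          ‖∑ i, g x i * conj (deriv g x i)‖ ^ 2) := by ring
    rw [e3, Real.sqrt_mul (by positivity), Real.sqrt_sq hR0.le, mul_div_assoc]
    have e4 : Real.sqrt ((∑ i, ‖g x i‖ ^ 2) * (∑ i, ‖deriv g x i‖ ^ 2) -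
        ‖∑ i, g x i * conj (deriv g x i)‖ ^ 2) / ∑ i, ‖g x i‖ ^ 2 = fs g x := rfl
    rw [e4, hR, div_mul_cancel₀ _ hx.ne']

end Pool.Agent.H72.RK
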