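import Pool.Agent.H48.RK.Defs

/-!
# The standard complex Gaussian measure: translations, tails
-/

namespace Pool.Agent.H72.RK

open MeasureTheory Pool.Agent.H48.RK

variable {T : Type} [Fintype T]

theorem den_nonneg (a : T → ℂ) : 0 ≤ dens a := by
  unfold dens
  positivity

theorem continuous_den : Continuous (dens (T := T)) := by
  unfold dens
  fun_prop

theorem integral_one : ∫ z : ℂ, Real.exp (-‖z‖ ^ 2) / Real.pi = 1 := by
  have h := GaussianFourier.integral_rexp_neg_mul_sq_norm (V := ℂ) (b := 1) one_pos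
  rw [Complex.finrank_real_complex] at h
  rw [integral_div]
  have h' : ∫ z : ℂ, Real.exp (-‖z‖ ^ 2) = Real.pi := by simpa using h
  rw [h', div_self Real.pi_ne_zero]

theorem integral_den : ∫ a : T → ℂ, dens a = 1 := by
  unfold dens
  rw [integral_fintype_prod_volume_eq_pow (fun z : ℂ => Real.exp (-‖z‖ ^ 2) / Real.pi),
    integral_one, one_pow]

theorem integrable_den : Integrable (dens (T := T)) := by
  by_contra h
  have := integral_undef h
  rw [integral_den] at this
  exact one_ne_zero this

theorem dens_eq (a : T → ℂ) : dens a = Real.exp (-∑ i, ‖a i‖ ^ 2) / Real.pi ^ Fintype.card T := by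
  unfold dens
  rw [Finset.prod_div_distrib, ← Real.exp_sum, Finset.sum_neg_distrib]
  simp

theorem lintegral_den : ∫⁻ a : T → ℂ, ENNReal.ofReal (dens a) = 1 := by
  rw [← ofReal_integral_eq_lintegral_ofReal integrable_den
    (Filter.Eventually.of_forall den_nonneg), integral_den, ENNReal.ofReal_one]

instance : IsProbabilityMeasure (gam T) := by
  refine ⟨?_⟩
  rw [gam, withDensity_apply _ MeasurableSet.univ, Measure.restrict_univ, lintegral_den]

theorem measurable_den : Measurable fun a : T → ℂ => ENNReal.ofReal (dens a) :=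
  (ENNReal.measurable_ofReal.comp continuous_den.measurable)

theorem measurable_den_add (v : T → ℂ) : Measurable fun a => ENNReal.ofReal (dens (a + v)) :=
  measurable_den.comp (measurable_add_const v)

theorem measurable_den_sub (v : T → ℂ) : Measurable fun a => ENNReal.ofReal (dens (a - v)) :=
  measurable_den.comp (measurable_sub_const v)

/-- the measure of a translate -/
theorem gau_shift {A : Set (T → ℂ)} (hA : MeasurableSet A) (v : T → ℂ) :
    gam T {a | a - v ∈ A} = ∫⁻ a in A, ENNReal.ofReal (dens (a + v)) := by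
  have hm : MeasurableSet {a : T → ℂ | a - v ∈ A} := (measurable_sub_const v) hA
  have hg : MeasurePreserving (fun a : T → ℂ => a - v) volume volume :=
    measurePreserving_sub_right volume v
  have h := hg.setLIntegral_comp_preimage (f := fun b => ENNReal.ofReal (dens (b + v))) hA
    (measurable_den.comp (measurable_add_const v))
  rw [gam, withDensity_apply _ hm, ← h]
  refine lintegral_congr fun a => ?_
  rw [sub_add_cancel]

theorem norm_add (a v : T → ℂ) : ∑ i, ‖a i + v i‖ ^ 2 =
    ∑ i, ‖a i‖ ^ 2 + 2 * (∑ i, a i * star (v i)).re + ∑ i, ‖v i‖ ^ 2 := by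
  rw [Complex.re_sum, Finset.mul_sum, ← Finset.sum_add_distrib, ← Finset.sum_add_distrib]
  refine Finset.sum_congr rfl fun i _ => ?_
  rw [← Complex.normSq_eq_norm_sq, ← Complex.normSq_eq_norm_sq, ← Complex.normSq_eq_norm_sq,
    Complex.normSq_add]
  simp only [Complex.star_def]
  ring

theorem den_add (a v : T → ℂ) : dens (a + v) =
    Real.exp (-∑ i, ‖v i‖ ^ 2 - 2 * (∑ i, a i * star (v i)).re) * dens a := by
  rw [dens_eq, dens_eq]
  rw [mul_div_assoc', ← Real.exp_add]
  congr 2
  simp only [Pi.add_apply]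
  rw [norm_add]
  ring

theorem two_le_den (a v : T → ℂ) :
    2 * Real.exp (-∑ i, ‖v i‖ ^ 2) * dens a ≤ dens (a + v) + dens (a + -v) := by
  rw [den_add, den_add]
  have e1 : ∑ i, ‖(-v) i‖ ^ 2 = ∑ i, ‖v i‖ ^ 2 := by simp
  have e2 : (∑ i, a i * star ((-v) i)).re = -(∑ i, a i * star (v i)).re := by
    simp [Finset.sum_neg_distrib]
  rw [e1, e2]
  set s := (∑ i, a i * star (v i)).re
  set N := ∑ i, ‖v i‖ ^ 2
  have h1 : Real.exp (-N - 2 * s) = Real.exp (-N) * Real.exp (-(2 * s)) := by
    rw [← Real.exp_add]; ring_nf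
  have h2 : Real.exp (-N - 2 * -s) = Real.exp (-N) * Real.exp (2 * s) := by
    rw [← Real.exp_add]; ring_nf
  rw [h1, h2, ← add_mul, ← mul_add]
  have h3 : 2 ≤ Real.exp (-(2 * s)) + Real.exp (2 * s) := by
    have := Real.one_le_cosh (2 * s)
    rw [Real.cosh_eq] at this
    linarith
  have h4 := den_nonneg a
  have h5 := Real.exp_pos (-N)
  calc 2 * Real.exp (-N) * dens a = Real.exp (-N) * 2 * dens a := by ring
    _ ≤ Real.exp (-N) * (Real.exp (-(2 * s)) + Real.exp (2 * s)) * dens a := by gcongr

/-- a set and two opposite translates -/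
theorem two_le_gau {A : Set (T → ℂ)} (hA : MeasurableSet A) (v : T → ℂ) :
    ENNReal.ofReal (2 * Real.exp (-∑ i, ‖v i‖ ^ 2)) * gam T A ≤
      gam T {a | a - v ∈ A} + gam T {a | a - -v ∈ A} := by
  rw [gau_shift hA, gau_shift hA]
  rw [← lintegral_add_left (measurable_den_add v), gam,
    withDensity_apply _ hA, ← lintegral_const_mul _ measurable_den]
  refine lintegral_mono fun a => ?_
  rw [← ENNReal.ofReal_mul (by positivity), ← ENNReal.ofReal_add (den_nonneg _)
    (den_nonneg _)]
  exact ENNReal.ofReal_le_ofReal (two_le_den a v)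

/-- an exponential bound -/
theorem gau_half (v : T → ℂ) (s : ℝ) :
    gam T {a | s ≤ (∑ i, a i * star (v i)).re} ≤
      ENNReal.ofReal (Real.exp (∑ i, ‖v i‖ ^ 2 - 2 * s)) := by
  have hm : MeasurableSet {a : T → ℂ | s ≤ (∑ i, a i * star (v i)).re} := by
    refine measurableSet_le measurable_const (Continuous.measurable ?_)
    fun_prop
  rw [gam, withDensity_apply _ hm]
  calc ∫⁻ a in {a : T → ℂ | s ≤ (∑ i, a i * star (v i)).re}, ENNReal.ofReal (dens a)
      ≤ ∫⁻ a in {a : T → ℂ | s ≤ (∑ i, a i * star (v i)).re},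
        ENNReal.ofReal (Real.exp (∑ i, ‖v i‖ ^ 2 - 2 * s)) * ENNReal.ofReal (dens (a - v)) := by
        refine setLIntegral_mono' hm fun a ha => ?_
        rw [← ENNReal.ofReal_mul (by positivity)]
        refine ENNReal.ofReal_le_ofReal ?_
        have h1 := den_add a (-v)
        rw [← sub_eq_add_neg] at h1
        have e1 : ∑ i, ‖(-v) i‖ ^ 2 = ∑ i, ‖v i‖ ^ 2 := by simp
        have e2 : (∑ i, a i * star ((-v) i)).re = -(∑ i, a i * star (v i)).re := by
          simp [Finset.sum_neg_distrib]
        rw [e1, e2] at h1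
        rw [h1, ← mul_assoc, ← Real.exp_add]
        have ha' : s ≤ (∑ i, a i * star (v i)).re := ha
        have h2 : 1 ≤ Real.exp (∑ i, ‖v i‖ ^ 2 - 2 * s +
            (-∑ i, ‖v i‖ ^ 2 - 2 * -(∑ i, a i * star (v i)).re)) := by
          refine Real.one_le_exp ?_
          linarith
        have h3 := den_nonneg a
        nlinarith
    _ ≤ ∫⁻ a, ENNReal.ofReal (Real.exp (∑ i, ‖v i‖ ^ 2 - 2 * s)) * ENNReal.ofReal (dens (a - v)) :=
        setLIntegral_le_lintegral _ _
    _ = ENNReal.ofReal (Real.exp (∑ i, ‖v i‖ ^ 2 - 2 * s)) := by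
        rw [lintegral_const_mul _ (measurable_den_sub v),
          lintegral_sub_right_eq_self (fun a => ENNReal.ofReal (dens a)), lintegral_den, mul_one]

/-- the tail of a linear form -/
theorem gau_tail (v : T → ℂ) (hv : ∑ i, ‖v i‖ ^ 2 = 1) (t : ℝ) (ht : 0 ≤ t) :
    gam T {a | t < ‖∑ i, a i * star (v i)‖} ≤ ENNReal.ofReal (4 * Real.exp (-t ^ 2 / 2)) := by
  set r := t / Real.sqrt 2 with hr
  have hr2 : r ^ 2 = t ^ 2 / 2 := by
    rw [hr, div_pow, Real.sq_sqrt (by norm_num)]
  have hr0 : 0 ≤ r := by positivity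
  -- the four half spaces
  have key : ∀ w : ℂ, ‖w‖ = 1 → gam T {a | r ^ 2 ≤ (∑ i, a i * star ((r * w) * v i)).re} ≤
      ENNReal.ofReal (Real.exp (-t ^ 2 / 2)) := by
    intro w hw
    have h1 := gau_half (fun i => (r * w) * v i) (r ^ 2)
    have h2 : ∑ i, ‖(r * w) * v i‖ ^ 2 = r ^ 2 := by
      have : ∀ i, ‖(r * w) * v i‖ ^ 2 = r ^ 2 * ‖v i‖ ^ 2 := fun i => by
        rw [norm_mul, norm_mul, hw, mul_one, Complex.norm_real, Real.norm_of_nonneg hr0, mul_pow]
      simp_rw [this]
      rw [← Finset.mul_sum, hv, mul_one]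
    rw [h2] at h1
    refine h1.trans (ENNReal.ofReal_le_ofReal (Real.exp_le_exp.2 ?_))
    rw [hr2]
    linarith
  have cover : {a : T → ℂ | t < ‖∑ i, a i * star (v i)‖} ⊆
      ({a | r ^ 2 ≤ (∑ i, a i * star ((r * 1) * v i)).re} ∪
        {a | r ^ 2 ≤ (∑ i, a i * star ((r * (-1)) * v i)).re}) ∪
      ({a | r ^ 2 ≤ (∑ i, a i * star ((r * Complex.I) * v i)).re} ∪
        {a | r ^ 2 ≤ (∑ i, a i * star ((r * (-Complex.I)) * v i)).re}) := by
    intro a ha
    set z := ∑ i, a i * star (v i) with hz
    have e : ∀ w : ℂ, (∑ i, a i * star ((r * w) * v i)).re = r * (star w * z).re := by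
      intro w
      have : ∑ i, a i * star ((r * w) * v i) = (r : ℂ) * (star w * z) := by
        rw [hz, Finset.mul_sum, Finset.mul_sum]
        refine Finset.sum_congr rfl fun i _ => ?_
        simp only [star_mul', Complex.star_def, Complex.conj_ofReal]
        ring
      rw [this, Complex.re_ofReal_mul]
    simp only [Set.mem_union, Set.mem_ofPred_eq, e]
    have h1 : t ^ 2 < z.re ^ 2 + z.im ^ 2 := by
      have h2 : t ^ 2 < ‖z‖ ^ 2 := by
        have : t < ‖z‖ := ha
        nlinarith
      rw [← Complex.normSq_eq_norm_sq, Complex.normSq_apply] at h2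
      nlinarith
    have h2 : r ^ 2 < z.re ^ 2 ∨ r ^ 2 < z.im ^ 2 := by
      by_contra hcon
      push Not at hcon
      rw [hr2] at hcon
      linarith [hcon.1, hcon.2]
    have h3 : ∀ x : ℝ, r ^ 2 < x ^ 2 → r ^ 2 ≤ r * x ∨ r ^ 2 ≤ r * (-x) := by
      intro x hx
      have hx' : r ≤ |x| := by
        have := sq_le_sq.1 hx.le
        rwa [abs_of_nonneg hr0] at this
      rcases abs_cases x with h | h
      · left
        rw [h.1] at hx'
        nlinarith
      · right
        rw [h.1] at hx'
        nlinarith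
    rcases h2 with h2 | h2
    · left
      rcases h3 _ h2 with h4 | h4
      · left
        simpa using h4
      · right
        simpa using h4
    · right
      rcases h3 _ h2 with h4 | h4
      · left
        simpa using h4
      · right
        simpa using h4
  refine (measure_mono cover).trans ((measure_union_le _ _).trans ?_)
  refine (add_le_add ((measure_union_le _ _).trans (add_le_add (key 1 (by simp)) (key (-1) (by simp))))
    ((measure_union_le _ _).trans (add_le_add (key Complex.I (by simp))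
      (key (-Complex.I) (by simp))))).trans ?_
  rw [← ENNReal.ofReal_add (by positivity) (by positivity),
    ← ENNReal.ofReal_add (by positivity) (by positivity)]
  refine ENNReal.ofReal_le_ofReal (le_of_eq ?_)
  ring

/-- **GAU-1.** -/
theorem gamUniv : GamUniv := fun _ _ => measure_univ

theorem gamShift : GamShift := by
  intro T _ A hA v
  have h := two_le_gau hA v
  rw [ENNReal.ofReal_mul (by norm_num)] at h
  simpa using h

theorem gamTail : GamTail := by
  intro T _ v hv B hB
  have h := gau_tail (fun i => star (v i)) (by simpa using hv) B hB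
  simpa using h

end Pool.Agent.H72.RK
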